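import Pool.Agent.H920.Alg.Root

/-!
# A base point on the curve
-/

set_option autoImplicit false

namespace Pool.Agent.H920

open Pool.Agent.Y939.NG Polynomial

/-- a point with non-zero coordinates over a finite extension -/
theorem exists_base {k₀ : Type} [Field k₀] [Finite k₀] {D : Dat k₀} (hD : D.Good) :
    ∃ (k₁ : Type) (_ : Field k₁) (_ : Finite k₁) (_ : Algebra k₀ k₁) (z₀ y₀ : k₁),
      z₀ ≠ 0 ∧ y₀ ≠ 0 ∧ D.val 0 z₀ y₀ = 0 := by
  classical
  let Om := AlgebraicClosure k₀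
  haveI : Infinite Om := inferInstance
  obtain ⟨z, hz⟩ := Infinite.exists_notMem_finset
    ((X * (D.b 0).map (algebraMap k₀ Om) : Om[X]).roots.toFinset)
  have hb0 : (D.b 0).map (algebraMap k₀ Om) ≠ 0 :=
    (Polynomial.map_ne_zero_iff (algebraMap k₀ Om).injective).2 (hD.sep 0).ne_zero
  rw [Multiset.mem_toFinset, mem_roots (mul_ne_zero X_ne_zero hb0), IsRoot.def, eval_mul, eval_X,
    mul_eq_zero, not_or, eval_map_algebraMap, D.aeval_b] at hz
  obtain ⟨hz0, hz1⟩ := hz
  set P₀ : Om := MvPolynomial.aeval (w 0 z) D.P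
  set Q₀ : Om := MvPolynomial.aeval (w 0 z) D.Q
  let F : Om[X] := X ^ D.n + (C P₀ * X ^ D.j + C Q₀)
  have hdeg : (C P₀ * X ^ D.j + C Q₀ : Om[X]).degree < D.n := by
    refine (degree_add_le _ _).trans_lt (max_lt ?_ ?_)
    · refine (degree_C_mul_X_pow_le _ _).trans_lt ?_
      exact_mod_cast D.hj
    · refine degree_C_le.trans_lt ?_
      exact_mod_cast D.n_pos
  have hF : F.degree = D.n := by
    change (X ^ D.n + (C P₀ * X ^ D.j + C Q₀) : Om[X]).degree = D.n
    rw [degree_add_eq_left_of_degree_lt, degree_X_pow]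
    rw [degree_X_pow]
    exact hdeg
  obtain ⟨y, hy⟩ := IsAlgClosed.exists_root F (by
    rw [hF]
    exact_mod_cast D.n_pos.ne')
  have hy' : D.val 0 z y = 0 := by
    have h1 : F.eval y = y ^ D.n + (P₀ * y ^ D.j + Q₀) := by
      simp [F]
    rw [IsRoot.def, h1] at hy
    exact hy
  have hy0 : y ≠ 0 := by
    rintro rfl
    apply hz1
    have h1 : (0 : Om) ^ D.n + (P₀ * 0 ^ D.j + Q₀) = 0 := hy'
    rw [zero_pow D.n_pos.ne', zero_pow D.j_pos.ne', mul_zero, zero_add, zero_add] at h1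
    exact h1
  let k₁ : IntermediateField k₀ Om := IntermediateField.adjoin k₀ {z, y}
  haveI : FiniteDimensional k₀ k₁ := IntermediateField.finiteDimensional_adjoin (fun x _ =>
    (Algebra.IsAlgebraic.isAlgebraic (R := k₀) x).isIntegral)
  haveI : Finite k₁ := Module.finite_of_finite k₀
  have hzm : z ∈ k₁ := IntermediateField.subset_adjoin k₀ _ (by simp)
  have hym : y ∈ k₁ := IntermediateField.subset_adjoin k₀ _ (by simp)
  refine ⟨k₁, inferInstance, inferInstance, inferInstance, ⟨z, hzm⟩, ⟨y, hym⟩, ?_, ?_, ?_⟩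
  · intro h
    exact hz0 (congrArg Subtype.val h)
  · intro h
    exact hy0 (congrArg Subtype.val h)
  · apply k₁.val.injective
    have h1 := val_map_hom D 0 k₁.val (⟨z, hzm⟩ : k₁) ⟨y, hym⟩
    refine Eq.trans h1 ?_
    exact hy'.trans (map_zero _).symm

end Pool.Agent.H920
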