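import Pool.Agent.H920.Cv.Pack
import Pool.Graph.R_pool_sql_team_seeded_1acbe0a2.Y939.NG.Genus

/-!
# The charts of the plane curves
-/

set_option autoImplicit false
set_option linter.unusedSectionVars false

open CategoryTheory AlgebraicGeometry HomogeneousLocalization Pool.Agent.H666R3.NG TensorProduct

namespace Pool.Agent.H920

open Pool.Agent.Y939.NG Pool.Agent.Helper198.Sch

attribute [local instance] MvPolynomial.gradedAlgebra

noncomputable section

variable {κ : Type} [Field κ] (D : Dat κ)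

/-- the restriction from the first chart -/
def rl : Ch D.J c1 →+* Away (gr D) (s12 D) := awayMap (gr D) (gen_mem D.J c2) rfl

/-- the restriction from the second chart -/
def rr : Ch D.J c2 →+* Away (gr D) (s12 D) := awayMap (gr D) (gen_mem D.J c1) (s12_eq D)

lemma rl_rr_alg (r : κ) : rl D (algebraMap κ _ r) = rr D (algebraMap κ _ r) := by
  change awayMap (gr D) (gen_mem D.J c2) rfl (fromZeroRingHom _ _ _) =
    awayMap (gr D) (gen_mem D.J c1) (s12_eq D) (fromZeroRingHom _ _ _)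
  rw [awayMap_fromZeroRingHom, awayMap_fromZeroRingHom]
  rfl

lemma spec_rl_rr : Spec.map (CommRingCat.ofHom (rl D)) ≫ V.chart D.J c1 =
    Spec.map (CommRingCat.ofHom (rr D)) ≫ V.chart D.J c2 := by
  have h1 := Proj.SpecMap_awayMap_awayι (gr D) (gen_mem D.J c1) one_pos (gen_mem D.J c2)
    (rfl : s12 D = _)
  have h2 := Proj.SpecMap_awayMap_awayι (gr D) (gen_mem D.J c2) one_pos (gen_mem D.J c1) (s12_eq D)
  exact h1.trans h2.symm

lemma loc_rl : letI := (rl D).toAlgebra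
    IsLocalization.Away (frac D.J c1 c2) (Away (gr D) (s12 D)) := by
  have h1 := Away.isLocalization_mul (gen_mem D.J c1) (gen_mem D.J c2) (rfl : s12 D = _) one_ne_zero
  rw [V.isLocalizationElem_eq] at h1
  exact h1

lemma loc_rr : letI := (rr D).toAlgebra
    IsLocalization.Away (frac D.J c2 c1) (Away (gr D) (s12 D)) := by
  have h1 := Away.isLocalization_mul (gen_mem D.J c2) (gen_mem D.J c1) (s12_eq D) one_ne_zero
  rw [V.isLocalizationElem_eq] at h1
  exact h1

/-- the algebra structure on the ring of the intersection -/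
abbrev oAlg : Algebra κ (Away (gr D) (s12 D)) := ((rl D).comp (algebraMap κ (Ch D.J c1))).toAlgebra

variable {k₀ : Type} [Field k₀] [Algebra k₀ κ]

/-- the charts of the curve -/
theorem exists_charts {D₀ : Dat k₀} (hD₀ : D₀.Good) :
    ∃ (A : Ix → Type) (_ : ∀ i, CommRing (A i)) (_ : ∀ i, Algebra κ (A i)) (cd : CD κ D₀ A)
      (m : ∀ i, SpecO κ (A i) ⟶ (Over.mk (V.str (D₀.map (algebraMap k₀ κ)).J) : Sch κ)),
      (∀ i, SpecM (cd.f i) ≫ m i = m .o) ∧
      ∀ (B : Type) [CommRing B] [Algebra κ B] (z y : B), IsUnit z →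
        (D₀.map (algebraMap k₀ κ)).val 0 z y = 0 →
        ∃ x : A .o →ₐ[κ] B, x (cd.z .o) = z ∧ x (cd.y .o) = y := by
  obtain ⟨D, hDdef⟩ : ∃ D, D = D₀.map (algebraMap k₀ κ) := ⟨_, rfl⟩
  have hD : D.Good := hDdef ▸ hD₀.map (algebraMap k₀ κ)
  have hn : D.n = D₀.n := by rw [hDdef]; rfl
  rw [← hDdef]
  letI iK : Algebra κ (Away (gr D) (s12 D)) := oAlg D
  let fl : Ch D.J c1 →ₐ[κ] Away (gr D) (s12 D) := { rl D with commutes' := fun r => rfl }
  let fr : Ch D.J c2 →ₐ[κ] Away (gr D) (s12 D) := { rr D with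
    commutes' := fun r => (rl_rr_alg D r).symm }
  have hfl : ∀ s, fl s = rl D s := fun s => rfl
  have hfr : ∀ s, fr s = rr D s := fun s => rfl
  have e1y : (D.chEquiv 0).symm (D.y 0) = frac D.J c1 0 := by
    rw [AlgEquiv.symm_apply_eq]
    exact (D.chEquiv_y 0).symm
  have e1x : (D.chEquiv 0).symm (D.x 0) = frac D.J c1 c2 := by
    rw [AlgEquiv.symm_apply_eq]
    exact (D.chEquiv_x 0).symm
  have e2y : (D.chEquiv 1).symm (D.y 1) = frac D.J c2 0 := by
    rw [AlgEquiv.symm_apply_eq]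
    exact (D.chEquiv_y 1).symm
  have e2x : (D.chEquiv 1).symm (D.x 1) = frac D.J c2 c1 := by
    rw [AlgEquiv.symm_apply_eq]
    exact (D.chEquiv_x 1).symm
  obtain ⟨hr1, hr2⟩ := rel_away D
  have hr1' : fr (frac D.J c2 c1) * fl (frac D.J c1 c2) = 1 := hr1
  have hr2' : fl (frac D.J c1 0) = fr (frac D.J c2 0) * fl (frac D.J c1 c2) := hr2
  haveI hdl : IsDomain (Ch D.J c1) := Dat.Good.isDomain_Ch D hD 0
  haveI hdr : IsDomain (Ch D.J c2) := Dat.Good.isDomain_Ch D hD 1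
  have hloc_l := loc_rl D
  have hloc_r := loc_rr D
  have hne : frac D.J c1 c2 ≠ 0 := D.frac_ne_zero 0 1 (Dat.Good.isDomain_A D hD 0)
  have hpow : Submonoid.powers (frac D.J c1 c2) ≤ nonZeroDivisors (Ch D.J c1) :=
    powers_le_nonZeroDivisors_of_noZeroDivisors hne
  have hinj : Function.Injective fl := by
    letI := (rl D).toAlgebra
    haveI := hloc_l
    exact IsLocalization.injective (Away (gr D) (s12 D)) hpow
  have hll : ∀ a : Away (gr D) (s12 D), ∃ (m : ℕ) (b : Ch D.J c1),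
      fl (frac D.J c1 c2) ^ m * a = fl b := by
    intro a
    letI := (rl D).toAlgebra
    haveI := hloc_l
    obtain ⟨m, b, h⟩ := IsLocalization.Away.surj (frac D.J c1 c2) a
    exact ⟨m, b, by rw [mul_comm]; exact h⟩
  have hlr : ∀ a : Away (gr D) (s12 D), ∃ (m : ℕ) (b : Ch D.J c2),
      fr (frac D.J c2 c1) ^ m * a = fr b := by
    intro a
    letI := (rr D).toAlgebra
    haveI := hloc_r
    obtain ⟨m, b, h⟩ := IsLocalization.Away.surj (frac D.J c2 c1) a
    exact ⟨m, b, by rw [mul_comm]; exact h⟩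
  have hdo : IsDomain (Away (gr D) (s12 D)) := by
    letI := (rl D).toAlgebra
    haveI := hloc_l
    exact IsLocalization.isDomain_of_le_nonZeroDivisors _ hpow
  have hmon_l : Mon κ D₀.n (frac D.J c1 c2) (frac D.J c1 0) := by
    rw [← hn, ← e1x, ← e1y]
    exact (mon_A D 0).of_equiv ((D.chEquiv 0).symm : D.A 0 →ₐ[κ] Ch D.J c1)
      (D.chEquiv 0).symm.surjective
  have hmon_r : Mon κ D₀.n (frac D.J c2 c1) (frac D.J c2 0) := by
    rw [← hn, ← e2x, ← e2y]
    exact (mon_A D 1).of_equiv ((D.chEquiv 1).symm : D.A 1 →ₐ[κ] Ch D.J c2)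
      (D.chEquiv 1).symm.surjective
  have hrel : D.val 0 (fl (frac D.J c1 c2)) (fl (frac D.J c1 0)) = 0 := by
    rw [← val_map_hom D 0 fl]
    have h := D.frac_rel 0
    have h' : D.val 0 (frac D.J c1 c2) (frac D.J c1 0) = 0 := h
    rw [h', map_zero]
  have htr : ∀ Q : Polynomial κ, Polynomial.aeval (fl (frac D.J c1 c2)) Q = 0 → Q = 0 := by
    intro Q hQ
    rw [Polynomial.aeval_algHom_apply] at hQ
    have h1 : Polynomial.aeval (frac D.J c1 c2) Q = 0 := hinj (by rw [hQ, map_zero])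
    by_contra hcon
    apply aeval_x_ne_zero D 0 Q hcon
    apply (D.chEquiv 0).symm.injective
    rw [← Polynomial.aeval_algHom_apply, e1x, h1, map_zero]
  let ml : SpecO κ (Ch D.J c1) ⟶ (Over.mk (V.str D.J) : Sch κ) :=
    Over.homMk (V.chart D.J c1) (V.chart_str D.J c1)
  let mr : SpecO κ (Ch D.J c2) ⟶ (Over.mk (V.str D.J) : Sch κ) :=
    Over.homMk (V.chart D.J c2) (V.chart_str D.J c2)
  have hm : SpecM fl ≫ ml = SpecM fr ≫ mr := by
    ext1
    exact spec_rl_rr D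
  obtain ⟨A, i1, i2, cd, m, e, hcd, hez, hey⟩ := mkCD (X := (Over.mk (V.str D.J) : Sch κ)) (D := D₀)
    fl fr (frac D.J c1 c2) (frac D.J c1 0) (frac D.J c2 c1) (frac D.J c2 0)
    (by rw [mul_comm]; exact hr1') (by
      rw [hr2', mul_assoc, mul_comm (fl _), hr1', mul_one]) hmon_l hmon_r (by rw [← hDdef]; exact hrel)
      hll hlr hdo htr ml mr hm
  refine ⟨A, i1, i2, cd, m, hcd, ?_⟩
  intro B _ _ z y hz hzy
  let x₀ : Ch D.J c1 →ₐ[κ] B := (D.lift 0 z y hzy).comp ((D.chEquiv 0) : Ch D.J c1 →ₐ[κ] D.A 0)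
  have hx₀z : x₀ (frac D.J c1 c2) = z := by
    change D.lift 0 z y hzy (D.chEquiv 0 (frac D.J c1 c2)) = z
    have h1 : D.chEquiv 0 (frac D.J c1 c2) = D.x 0 := D.chEquiv_x 0
    rw [h1]
    exact D.lift_x 0 _ _ _
  have hx₀y : x₀ (frac D.J c1 0) = y := by
    change D.lift 0 z y hzy (D.chEquiv 0 (frac D.J c1 0)) = y
    have h1 : D.chEquiv 0 (frac D.J c1 0) = D.y 0 := D.chEquiv_y 0
    rw [h1]
    exact D.lift_y 0 _ _ _
  obtain ⟨x₁, hx₁⟩ : ∃ x₁ : Away (gr D) (s12 D) →+* B, ∀ s, x₁ (fl s) = x₀ s := by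
    letI := (rl D).toAlgebra
    haveI := hloc_l
    exact ⟨IsLocalization.Away.lift (frac D.J c1 c2) (g := x₀.toRingHom) (by
      change IsUnit (x₀ (frac D.J c1 c2))
      rw [hx₀z]; exact hz), fun s => IsLocalization.Away.lift_eq _ _ s⟩
  let x₂ : Away (gr D) (s12 D) →ₐ[κ] B := { x₁ with
    commutes' := fun r => by
      have h1 : algebraMap κ (Away (gr D) (s12 D)) r = fl (algebraMap κ _ r) := rfl
      change x₁ (algebraMap κ (Away (gr D) (s12 D)) r) = _
      rw [h1, hx₁, AlgHom.commutes] }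
  refine ⟨x₂.comp (e : A .o →ₐ[κ] Away (gr D) (s12 D)), ?_, ?_⟩
  · change x₁ (e (cd.z .o)) = z
    rw [hez, hx₁, hx₀z]
  · change x₁ (e (cd.y .o)) = y
    rw [hey, hx₁, hx₀y]

end

end Pool.Agent.H920
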