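import Pool.Agent.H920.Cv.Charts
import Pool.Agent.H920.Cv.Base
import Pool.Agent.H920.St.Lim

/-!
# Rational points of profinite gerbes with an object over a constant curve
-/

set_option autoImplicit false
set_option linter.unusedSectionVars false

open CategoryTheory AlgebraicGeometry Pool.Agent.H666R3.NG TensorProduct

namespace Pool.Agent.H920

open Pool.Agent.Y939.NG Pool.Agent.Helper198.Sch

noncomputable section

variable {κ : Type} [Field κ]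

/-- pull back an object along morphisms from affine schemes -/
theorem exists_eta {Pi : OverSch κ} (hX : IsFibredInGroupoids Pi) {X : Sch κ} (ξ : Pi.p.Fiber X)
    {A : Ix → Type} [∀ i, CommRing (A i)] [∀ i, Algebra κ (A i)]
    (f : ∀ i, A i →ₐ[κ] A .o) (hf : f .o = AlgHom.id κ _) (m : ∀ i, SpecO κ (A i) ⟶ X)
    (hm : ∀ i, SpecM (f i) ≫ m i = m .o) :
    ∃ (η : ∀ i, AOb Pi (A i)) (α : ∀ i, (η .o).o ⟶ (η i).o),
      (∀ i, Lies (η .o) (η i) (α i) (f i)) ∧ α .o = 𝟙 _ := by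
  have h1 : ∀ i, ∃ (η : AOb Pi (A i)) (φ : η.o ⟶ ξ.1),
      Pi.p.map φ = η.i.hom ≫ m i ≫ eqToHom ξ.2.symm := by
    intro i
    obtain ⟨x, e, φ, hφ⟩ := exists_pull hX ξ.1 (m i ≫ eqToHom ξ.2.symm)
    exact ⟨⟨x, e⟩, φ, hφ⟩
  choose η φ hφ using h1
  have h2 : ∀ i, ∃ α : (η .o).o ⟶ (η i).o, Lies (η .o) (η i) α (f i) ∧ α ≫ φ i = φ .o := by
    intro i
    obtain ⟨α, ⟨h1, h2⟩, _⟩ := lift_unique hX (φ i) (φ .o)
      ((η .o).i.hom ≫ SpecM (f i) ≫ (η i).i.inv) (by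
        rw [hφ, hφ, ← hm i]
        simp)
    exact ⟨α, Lies.of_map_eq h1, h2⟩
  choose α hα hαφ using h2
  refine ⟨η, α, hα, ?_⟩
  refine homA_eq hX (φ .o) (f := AlgHom.id κ _) ?_ (Lies.id _) ?_
  · have := hα .o
    rwa [hf] at this
  · rw [hαφ, Category.id_comp]

/-- the morphisms of a cone lie over identities -/
lemma lies_lam {I : Type} [Preorder I] {𝒮 : Diagram (Sch κ) I} {α : 𝒮.Transitivity} {Pi : OverSch κ}
    {c : ConeData 𝒮 Pi} (hc : IsCone α c) {A : Type} [CommRing A] [Algebra κ A] (x : AOb Pi A)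
    (i j : I) (h : i ≤ j) :
    Lies ((x.map (c.P j)).map (𝒮.F h)) (x.map (c.P i)) (c.lam i j h x.o) (AlgHom.id κ A) := by
  have h1 : (𝒮.Γ i).p.IsHomLift (𝟙 (Pi.p.obj x.o)) (c.lam i j h x.o) := hc.liesOver i j h x.o
  have h2 := IsHomLift.fac' (𝒮.Γ i).p (𝟙 (Pi.p.obj x.o)) (c.lam i j h x.o)
  unfold Lies
  rw [SpecM_id, Category.comp_id]
  change (𝒮.Γ i).p.map (c.lam i j h x.o) ≫ (eqToIso ((c.P i).w_obj x.o) ≪≫ x.i).hom =
    (eqToIso ((𝒮.F h).w_obj ((c.P j).obj x.o)) ≪≫ (eqToIso ((c.P j).w_obj x.o) ≪≫ x.i)).hom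
  refine (congrArg (fun t => t ≫ (eqToIso ((c.P i).w_obj x.o) ≪≫ x.i).hom) h2).trans ?_
  simp only [Iso.trans_hom, eqToIso.hom, Category.assoc, eqToHom_trans_assoc, eqToHom_refl,
    Category.id_comp]
  rfl

variable {k₀ : Type} [Field k₀] [Fintype k₀] [Algebra k₀ κ] {p : ℕ} [Fact p.Prime] [CharP κ p]

/-- **Every profinite gerbe with an object over a constant curve has an object over `κ`.** -/
theorem exists_point_gerbe
    (hfield : ∀ (L : Type) [Field L] [Algebra k₀ L] [Finite L], IsField (κ ⊗[k₀] L))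
    (hcon : ∀ (E : Type) [Field E] [Algebra κ E] [Module.Finite κ E] [CharP E p],
      Finite (conF E p))
    {D : Dat k₀} (hD : D.Good) {Pi : OverSch κ} (hPi : IsProfiniteGerbe Pi)
    (ξ : Pi.p.Fiber (Over.mk (V.str (D.map (algebraMap k₀ κ)).J) : Sch κ)) :
    Nonempty (Pi.p.Fiber (pt κ)) := by
  obtain ⟨A, _, _, cd, m, hm, hpt⟩ := exists_charts (κ := κ) hD
  obtain ⟨k₁, _, _, _, z₀, y₀, hz₀, hy₀, h0⟩ := exists_base hD
  obtain ⟨x₁, hxz, hxy⟩ := hpt (κ ⊗[k₀] k₁) (1 ⊗ₜ z₀) (1 ⊗ₜ y₀)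
    ((isUnit_iff_ne_zero.2 hz₀).map (Algebra.TensorProduct.includeRight : k₁ →ₐ[k₀] κ ⊗[k₀] k₁)) (by
      rw [val_map]
      have h1 := val_map_hom D 0 (Algebra.TensorProduct.includeRight : k₁ →ₐ[k₀] κ ⊗[k₀] k₁) z₀ y₀
      rw [h0, map_zero] at h1
      exact h1.symm)
  obtain ⟨η, a, ha, hao⟩ := exists_eta hPi.gerbe.stack.fibred ξ cd.f cd.fo m hm
  obtain ⟨I, _, _, _, 𝒮, α, c, h𝒮, hfin, hc⟩ := hPi.limit
  obtain ⟨o, ho⟩ := exists_limObjG hfield 𝒮 α h𝒮 hfin (x₁.comp (cd.f .l))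
    (fun i => (η .l).map (c.P i)) (fun i j h => c.lam i j h (η .l).o)
    (fun i j h => lies_lam hc.isCone (η .l) i j h) (by
      intro i
      refine exists_good (p := p) hfield hcon hD cd z₀ y₀ hz₀ hy₀ h0 x₁ hxz hxy (hfin i).finite
        (fun s => (η s).map (c.P i)) (fun s => (c.P i).map (a s)) (fun s => (ha s).map (c.P i)) ?_
      rw [hao]
      exact (c.P i).toFunctor.map_id _)
  obtain ⟨x, _⟩ := hc.essSurj (pt κ) o ho
  exact ⟨x⟩

end

end Pool.Agent.H920
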