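import Pool.Agent.H920.Cv.NoPt
import Pool.Agent.H920.Cv.Gerbe
import Pool.Agent.H920.Fd.Alg
import Pool.Graph.R_pool_sql_team_seeded_1acbe0a2.Y939.NG.Fam

/-!
# Constant curves without rational points over finitely generated fields
-/

set_option autoImplicit false
set_option linter.unusedSectionVars false

open CategoryTheory AlgebraicGeometry Pool.Agent.H666R3.NG TensorProduct

namespace Pool.Agent.H920

open Pool.Agent.Y939.NG Pool.Agent.Helper198.Sch

noncomputable section

theorem essFinite_of_finGen {κ : Type} [Field κ] (p : ℕ) [Algebra (ZMod p) κ]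
    [Fact p.Prime] (h : FinGenOverPrime κ) : Algebra.EssFiniteType (ZMod p) κ := by
  obtain ⟨s, hs⟩ := h
  rw [← IntermediateField.fg_top_iff]
  refine ⟨s, ?_⟩
  rw [eq_top_iff]
  intro x _
  have h1 : Subfield.closure (s : Set κ) ≤ (IntermediateField.adjoin (ZMod p) (s : Set κ)).toSubfield :=
    Subfield.closure_le.2 (IntermediateField.subset_adjoin _ _)
  rw [hs] at h1
  exact h1 (Subfield.mem_top x)

theorem essFinite_trans {κ E : Type} [Field κ] [Field E] (p : ℕ) [Algebra (ZMod p) κ]
    [Fact p.Prime] [Algebra (ZMod p) E] [Algebra κ E] [Module.Finite κ E]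
    [Algebra.EssFiniteType (ZMod p) κ] : Algebra.EssFiniteType (ZMod p) E := by
  haveI : IsScalarTower (ZMod p) κ E := IsScalarTower.of_algebraMap_eq' (Subsingleton.elim _ _)
  exact Algebra.EssFiniteType.comp (ZMod p) κ E

theorem finrank_le_of_roots {k l : Type} [Field k] [Field l] [Finite k] [Algebra k l] (N : ℕ)
    (h : ∀ e : l, ∃ f : Polynomial k, f ≠ 0 ∧ f.natDegree ≤ N ∧ Polynomial.aeval e f = 0) :
    Finite l ∧ Module.finrank k l ≤ N := by
  have h1 : Finite l := Set.finite_univ_iff.1 (finite_of_forall_root (C := k) N Set.univ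
    fun e _ => h e)
  haveI : FiniteDimensional k l := inferInstance
  refine ⟨h1, ?_⟩
  obtain ⟨α, hα⟩ := Field.exists_primitive_element_of_finite_top k l
  obtain ⟨f, hf, hN, h0⟩ := h α
  have h2 := IntermediateField.adjoin.finrank (K := k) (x := α) (Algebra.IsIntegral.isIntegral α)
  rw [hα, IntermediateField.finrank_top'] at h2
  rw [h2]
  exact (Polynomial.natDegree_le_of_dvd (minpoly.dvd k α h0) hf).trans hN

/-- constants lie in valuation rings -/
theorem exists_lift_const {E A k k₀ : Type} [Field E] [CommRing A] [Field k] [Field k₀] [Finite k₀]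
    [Algebra k₀ E] {ι : A →+* E} {φ : A →+* k} (h : IsPl ι φ) :
    ∃ j : k₀ →+* A, ∀ c, ι (j c) = algebraMap k₀ E c := by
  haveI := Fintype.ofFinite k₀
  have h1 : ∀ c : k₀, ∃ a, ι a = algebraMap k₀ E c := by
    intro c
    by_cases hc : c = 0
    · exact ⟨0, by rw [hc, map_zero, map_zero]⟩
    · rcases h.val (algebraMap k₀ E c) with h2 | ⟨a, ha⟩
      · exact h2
      · refine ⟨a ^ (Fintype.card k₀ - 2), ?_⟩
        rw [map_pow, ha, ← map_inv₀, ← map_pow]
        congr 1
        have h3 := FiniteField.pow_card_sub_one_eq_one c hc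
        have h4 : Fintype.card k₀ - 1 = (Fintype.card k₀ - 2) + 1 := by
          have := Fintype.one_lt_card (α := k₀)
          omega
        rw [h4, pow_succ] at h3
        rw [inv_pow]
        exact inv_eq_of_mul_eq_one_right h3
  let e : A ≃+* ι.range := RingEquiv.ofBijective ι.rangeRestrict
    ⟨fun a b hab => h.inj (congrArg Subtype.val hab), ι.rangeRestrict_surjective⟩
  let g : k₀ →+* ι.range := (algebraMap k₀ E).codRestrict ι.range h1
  refine ⟨(e.symm : ι.range →+* A).comp g, fun c => ?_⟩
  have h2 : e (e.symm (g c)) = g c := e.apply_symm_apply _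
  exact congrArg Subtype.val h2

/-- forms over a finite field without zeros over the extensions of bounded degree of a finitely
generated field -/
theorem exists_dat {κ k₀ : Type} [Field κ] [Field k₀] [Finite k₀] [Algebra k₀ κ] (hpl : HasPl κ)
    (r N : ℕ) : ∃ D : Dat k₀, D.Good ∧ N ≤ (D.n - 1).choose 2 ∧
      ∀ (K : Type) [Field K] [Algebra κ K] [Algebra k₀ K] [IsScalarTower k₀ κ K],
        0 < Module.finrank κ K → Module.finrank κ K ≤ r →
        ∀ (s : Fin 2) (a b : K), D.val s a b ≠ 0 := by
  obtain ⟨A, _, k, _, ι, φ, hk, h⟩ := hpl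
  haveI := h.isLocalRing
  haveI := h.finite_residue
  obtain ⟨j, hj⟩ := exists_lift_const (k₀ := k₀) h
  letI iA : Algebra k₀ (IsLocalRing.ResidueField A) := ((IsLocalRing.residue A).comp j).toAlgebra
  obtain ⟨D, hD, hN, hpt⟩ := exists_curve k₀ (Module.finrank k₀ (IsLocalRing.ResidueField A) * r) N
  refine ⟨D, hD, hN, ?_⟩
  intro K _ _ _ _ h0 hr
  haveI : Module.Finite κ K := Module.finite_of_finrank_pos h0
  obtain ⟨B, g, hg, hgι, hB⟩ := h.exists_dom (E := K)
  letI iAB : Algebra (IsLocalRing.ResidueField A) (IsLocalRing.ResidueField B) :=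
    (IsLocalRing.ResidueField.map g).toAlgebra
  obtain ⟨hfin, hrank⟩ := finrank_le_of_roots (k := IsLocalRing.ResidueField A)
    (l := IsLocalRing.ResidueField B) (Module.finrank κ K) fun e => hB e
  refine no_zero D B (g.comp j) ?_ ?_
  · intro c
    change ((g (j c) : B) : K) = _
    rw [hgι, hj, ← IsScalarTower.algebraMap_apply]
  · letI iB : Algebra k₀ (IsLocalRing.ResidueField B) :=
      ((IsLocalRing.residue B).comp (g.comp j)).toAlgebra
    haveI : IsScalarTower k₀ (IsLocalRing.ResidueField A) (IsLocalRing.ResidueField B) :=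
      IsScalarTower.of_algebraMap_eq fun c => rfl
    have h1 := Module.finrank_mul_finrank k₀ (IsLocalRing.ResidueField A)
      (IsLocalRing.ResidueField B)
    refine hpt (IsLocalRing.ResidueField B) Module.finrank_pos ?_
    rw [← h1]
    exact Nat.mul_le_mul le_rfl (hrank.trans hr)

end

end Pool.Agent.H920
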