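import Pool.Agent.H920.Fd.Place
import Pool.Agent.H920.Alg.TaylorN

/-!
# Zeros of the forms over fields with places
-/

set_option autoImplicit false
set_option linter.unusedSectionVars false

namespace Pool.Agent.H920

open Pool.Agent.Y939.NG MvPolynomial

noncomputable section

lemma homog_scale {σ R E : Type} [Fintype σ] [CommRing R] [CommRing E] [Algebra R E]
    {P : MvPolynomial σ R} {d : ℕ} (hP : P.IsHomogeneous d) (c : E) (x : σ → E) :
    aeval (fun i => c * x i) P = c ^ d * aeval x P := by
  conv_lhs => rw [P.as_sum]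
  conv_rhs => rw [P.as_sum]
  rw [map_sum, map_sum, Finset.mul_sum]
  refine Finset.sum_congr rfl fun m hm => ?_
  rw [aeval_monomial, aeval_monomial]
  have h1 : m.degree = d := hP.degree_eq_sum_deg_support hm ▸ rfl
  have h2 : (m.prod fun i k => (c * x i) ^ k) = c ^ d * m.prod fun i k => x i ^ k := by
    rw [Finsupp.prod_fintype _ _ (by simp), Finsupp.prod_fintype _ _ (by simp)]
    simp_rw [mul_pow]
    rw [Finset.prod_mul_distrib, Finset.prod_pow_eq_pow_sum, ← h1, Finsupp.degree_eq_sum]
  rw [h2]
  ring

lemma val_rev {R E : Type} [CommRing R] [Field E] [Algebra R E] (D : Dat R) (s : Fin 2) (a b : E)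
    (ha : a ≠ 0) : D.val s.rev a⁻¹ (b * a⁻¹) = a⁻¹ ^ D.n * D.val s a b := by
  have hw : w s.rev a⁻¹ = fun i => a⁻¹ * w s a i := by
    funext i
    rcases eq_or_rev s i with rfl | rfl
    · have h1 : w i.rev a⁻¹ i = a⁻¹ := by
        unfold w
        rw [if_neg]
        exact fun h => rev_ne i h.symm
      rw [h1]
      unfold w
      rw [if_pos rfl, mul_one]
    · rw [w_rev, inv_mul_cancel₀ ha]
      unfold w
      rw [if_pos rfl]
  unfold Dat.val
  rw [hw, homog_scale D.hP, homog_scale D.hQ, mul_pow, mul_pow]
  have h1 : a⁻¹ ^ D.n = a⁻¹ ^ (D.n - D.j) * a⁻¹ ^ D.j := by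
    rw [← pow_add, Nat.sub_add_cancel D.hj.le]
  linear_combination (-(b ^ D.j * (aeval (w s a)) D.P)) * h1

/-- a form without zeros in the residue field of a valuation ring has no zeros in the field -/
theorem no_zero {k₀ K : Type} [Field k₀] [Field K] [Algebra k₀ K] (D : Dat k₀)
    (V : ValuationSubring K) (j : k₀ →+* V) (hj : ∀ c, (j c : K) = algebraMap k₀ K c)
    (h : letI : Algebra k₀ (IsLocalRing.ResidueField V) :=
        ((IsLocalRing.residue V).comp j).toAlgebra
      ∀ (s : Fin 2) (a b : IsLocalRing.ResidueField V), D.val s a b ≠ 0)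
    (s : Fin 2) (a b : K) : D.val s a b ≠ 0 := by
  letI : Algebra k₀ V := j.toAlgebra
  letI : Algebra k₀ (IsLocalRing.ResidueField V) := ((IsLocalRing.residue V).comp j).toAlgebra
  have h' : ∀ (s : Fin 2) (a b : IsLocalRing.ResidueField V), D.val s a b ≠ 0 := h
  let ι : V →ₐ[k₀] K := { V.subtype with commutes' := hj }
  let ρ : V →ₐ[k₀] IsLocalRing.ResidueField V :=
    { IsLocalRing.residue V with commutes' := fun _ => rfl }
  have key : ∀ (s : Fin 2) (a b : K), a ∈ V → D.val s a b ≠ 0 := by
    intro s a b ha h0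
    have hb : b ∈ V := by
      have hint : IsIntegral V b := by
        let a' : V := ⟨a, ha⟩
        refine ⟨Polynomial.X ^ D.n + (Polynomial.C (aeval (w s a') D.P) * Polynomial.X ^ D.j +
          Polynomial.C (aeval (w s a') D.Q)), ?_, ?_⟩
        · refine Polynomial.monic_X_pow_add ?_
          refine (Polynomial.degree_add_le _ _).trans_lt (max_lt ?_ ?_)
          · refine (Polynomial.degree_C_mul_X_pow_le _ _).trans_lt ?_
            exact_mod_cast D.hj
          · refine Polynomial.degree_C_le.trans_lt ?_
            exact_mod_cast D.n_pos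
        · rw [Polynomial.eval₂_add, Polynomial.eval₂_add, Polynomial.eval₂_mul,
            Polynomial.eval₂_pow, Polynomial.eval₂_pow, Polynomial.eval₂_X, Polynomial.eval₂_C,
            Polynomial.eval₂_C]
          have hw : ∀ P : MvPolynomial (Fin 2) k₀,
              algebraMap V K (aeval (w s a') P) = aeval (w s a) P := by
            intro P
            change ι (aeval (w s a') P) = _
            rw [MvPolynomial.comp_aeval_apply]
            congr 2
            funext i
            unfold w
            split_ifs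
            · exact map_one _
            · rfl
          rw [hw, hw]
          exact h0
      obtain ⟨y, hy⟩ := IsIntegrallyClosed.isIntegral_iff.1 hint
      rw [← hy]
      exact y.2
    have h1 : D.val s (⟨a, ha⟩ : V) ⟨b, hb⟩ = 0 := by
      have h2 := val_map_hom D s ι (⟨a, ha⟩ : V) ⟨b, hb⟩
      apply Subtype.val_injective
      exact h2.trans h0
    have h3 := val_map_hom D s ρ (⟨a, ha⟩ : V) ⟨b, hb⟩
    rw [h1, map_zero] at h3
    exact h' s _ _ h3.symm
  by_cases ha : a ∈ V
  · exact key s a b ha
  · have ha0 : a ≠ 0 := by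
      rintro rfl
      exact ha V.zero_mem
    have ha1 : a⁻¹ ∈ V := (V.mem_or_inv_mem a).resolve_left ha
    intro h0
    refine key s.rev a⁻¹ (b * a⁻¹) ha1 ?_
    rw [val_rev D s a b ha0, h0, mul_zero]

end

end Pool.Agent.H920
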