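import Pool.Agent.H920.St.Core

/-!
# Families of rings indexed by the charts
-/

set_option autoImplicit false
set_option linter.unusedSectionVars false

open CategoryTheory AlgebraicGeometry Opposite Pool.Agent.H666R3.NG TensorProduct

namespace Pool.Agent.H920

open Pool.Agent.Y939.NG

noncomputable section

/-- a family of types indexed by the charts -/
def ixT (a b c : Type) : Ix → Type
  | .o => a
  | .l => b
  | .r => c

variable {k₀ κ : Type} [Field k₀] [Field κ] [Algebra k₀ κ] {D : Dat k₀}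

/-- packaging of the charts -/
theorem mkCD {X : Sch κ} {Ao Al Ar : Type} [iro : CommRing Ao] [irl : CommRing Al]
    [irr : CommRing Ar] [iao : Algebra κ Ao] [ial : Algebra κ Al] [iar : Algebra κ Ar]
    (fl : Al →ₐ[κ] Ao) (fr : Ar →ₐ[κ] Ao) (zl yl : Al) (zr yr : Ar)
    (hzr : fl zl * fr zr = 1) (hyr : fr yr = fl yl * fr zr)
    (mon_l : Mon κ D.n zl yl) (mon_r : Mon κ D.n zr yr)
    (rel : (D.map (algebraMap k₀ κ)).val 0 (fl zl) (fl yl) = 0)
    (loc_l : ∀ a : Ao, ∃ (m : ℕ) (b : Al), fl zl ^ m * a = fl b)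
    (loc_r : ∀ a : Ao, ∃ (m : ℕ) (b : Ar), fr zr ^ m * a = fr b)
    (dom : IsDomain Ao)
    (tr : ∀ Q : Polynomial κ, Polynomial.aeval (fl zl) Q = 0 → Q = 0)
    (ml : SpecO κ Al ⟶ X) (mr : SpecO κ Ar ⟶ X) (hm : SpecM fl ≫ ml = SpecM fr ≫ mr) :
    ∃ (A : Ix → Type) (_ : ∀ i, CommRing (A i)) (_ : ∀ i, Algebra κ (A i)) (cd : CD κ D A)
      (m : ∀ i, SpecO κ (A i) ⟶ X) (e : A .o ≃ₐ[κ] Ao), (∀ i, SpecM (cd.f i) ≫ m i = m .o) ∧
      e (cd.z .o) = fl zl ∧ e (cd.y .o) = fl yl := by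
  letI i1 : ∀ i, CommRing (ixT Ao Al Ar i) := fun i => match i with
    | .o => iro
    | .l => irl
    | .r => irr
  letI i2 : ∀ i, Algebra κ (ixT Ao Al Ar i) := fun i => match i with
    | .o => iao
    | .l => ial
    | .r => iar
  let f : ∀ i, ixT Ao Al Ar i →ₐ[κ] ixT Ao Al Ar .o := fun i => match i with
    | .o => AlgHom.id κ _
    | .l => fl
    | .r => fr
  let z : ∀ i, ixT Ao Al Ar i := fun i => match i with
    | .o => fl zl
    | .l => zl
    | .r => zr
  let y : ∀ i, ixT Ao Al Ar i := fun i => match i with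
    | .o => fl yl
    | .l => yl
    | .r => yr
  let cd : CD κ D (ixT Ao Al Ar) :=
    { f := f
      fo := rfl
      z := z
      y := y
      hzl := rfl
      hyl := rfl
      hzr := hzr
      hyr := hyr
      mon_l := mon_l
      mon_r := mon_r
      rel := rel
      loc_l := loc_l
      loc_r := loc_r
      dom := dom
      tr := tr }
  let m : ∀ i, SpecO κ (ixT Ao Al Ar i) ⟶ X := fun i => match i with
    | .o => SpecM fl ≫ ml
    | .l => ml
    | .r => mr
  refine ⟨ixT Ao Al Ar, i1, i2, cd, m, (AlgEquiv.refl : Ao ≃ₐ[κ] Ao), ?_, rfl, rfl⟩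
  intro i
  match i with
  | .o =>
    change SpecM (AlgHom.id κ Ao) ≫ SpecM fl ≫ ml = SpecM fl ≫ ml
    rw [SpecM_id, Category.id_comp]
  | .l => rfl
  | .r => exact hm.symm

end

end Pool.Agent.H920
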